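import Pool.Agent.TH575.TrVol

/-!
# Convex hulls of two intersecting translates: the minimum for Gromov's mass in every dimension

For a convex body `K` in `ℝᵈ` let `M = (K - K)/2` be the unit ball of its relative norm and let
`c(K)` be the largest Gromov mass (with respect to `M`) of the convex hull of `K` and a translate of
`K` which meets `K`. The minimum of `c(K)` over all convex bodies in `ℝᵈ` is `(d + 1) 2ᵈ / d!`, for
every `d ≥ 1`, and it is attained by the cross-polytope.
-/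

set_option autoImplicit false

open MeasureTheory Set
open scoped Pointwise

namespace Pool.Agent.Results.MP_87489e_co.GromovMass

/-- A convex body: a compact convex set with nonempty interior. -/
def IsBody {d : ℕ} (K : Set (Fin d → ℝ)) : Prop :=
  Convex ℝ K ∧ IsCompact K ∧ (interior K).Nonempty

/-- The unit ball `(K - K)/2` of the relative norm of `K`. -/
def relBall {d : ℕ} (K : Set (Fin d → ℝ)) : Set (Fin d → ℝ) := (2⁻¹ : ℝ) • (K - K)

/-- The cross-polytope with centre `x` and vertices `x ± u i`. -/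
def cross {d : ℕ} (x : Fin d → ℝ) (u : Fin d → Fin d → ℝ) : Set (Fin d → ℝ) :=
  convexHull ℝ {y | ∃ i, y = x + u i ∨ y = x - u i}

/-- The largest volume of a cross-polytope inscribed in `M`. -/
noncomputable def maxCross {d : ℕ} (M : Set (Fin d → ℝ)) : ℝ :=
  sSup {v | ∃ (x : Fin d → ℝ) (u : Fin d → Fin d → ℝ), LinearIndependent ℝ u ∧ cross x u ⊆ M ∧
    v = (volume (cross x u)).toReal}

/-- Gromov's mass of `S` in the normed space with unit ball `M`: the multiple of Lebesgue measure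
which gives `2ᵈ/d!` to a cross-polytope of largest volume inscribed in `M`. -/
noncomputable def mass {d : ℕ} (M S : Set (Fin d → ℝ)) : ℝ :=
  (2 ^ d / d.factorial) / maxCross M * (volume S).toReal

/-- The largest Gromov mass, for the relative norm of `K`, of the convex hull of `K` and a translate
`p + K` which meets `K`. -/
noncomputable def ctr {d : ℕ} (K : Set (Fin d → ℝ)) : ℝ :=
  sSup {c | ∃ p : Fin d → ℝ, ((p +ᵥ K) ∩ K).Nonempty ∧
    c = mass (relBall K) (convexHull ℝ (K ∪ (p +ᵥ K)))}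

section lemmas

variable {n : ℕ}

theorem cross_image (A : (Fin (n + 1) → ℝ) ≃ₗ[ℝ] (Fin (n + 1) → ℝ)) (x : Fin (n + 1) → ℝ)
    (u : Fin (n + 1) → Fin (n + 1) → ℝ) :
    A '' cross x u = cross (A x) (fun i => A (u i)) := by
  unfold cross
  have h := LinearMap.image_convexHull (𝕜 := ℝ) A.toLinearMap {y | ∃ i, y = x + u i ∨ y = x - u i}
  simp only [LinearEquiv.coe_coe] at h
  rw [h]
  congr 1
  ext y
  simp only [mem_image, mem_ofPred_eq]
  constructor
  · rintro ⟨z, ⟨i, rfl | rfl⟩, rfl⟩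
    · exact ⟨i, Or.inl (by simp)⟩
    · exact ⟨i, Or.inr (by simp)⟩
  · rintro ⟨i, rfl | rfl⟩
    · exact ⟨x + u i, ⟨i, Or.inl rfl⟩, by simp⟩
    · exact ⟨x - u i, ⟨i, Or.inr rfl⟩, by simp⟩

theorem cross_compact (x : Fin (n + 1) → ℝ) (u : Fin (n + 1) → Fin (n + 1) → ℝ) :
    IsCompact (cross x u) := by
  apply Set.Finite.isCompact_convexHull
  have : {y | ∃ i, y = x + u i ∨ y = x - u i} =
      (range fun i => x + u i) ∪ (range fun i => x - u i) := by
    ext y
    simp only [mem_ofPred_eq, mem_union, mem_range]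
    constructor
    · rintro ⟨i, h | h⟩
      · exact Or.inl ⟨i, h.symm⟩
      · exact Or.inr ⟨i, h.symm⟩
    · rintro (⟨i, h⟩ | ⟨i, h⟩)
      · exact ⟨i, Or.inl h.symm⟩
      · exact ⟨i, Or.inr h.symm⟩
  rw [this]
  exact (finite_range _).union (finite_range _)

theorem cross_std_le (x : Fin (n + 1) → ℝ) :
    volume (cross x (fun i => (Pi.single i 1 : Fin (n + 1) → ℝ))) ≤
      ENNReal.ofReal (2 ^ (n + 1) / (n + 1).factorial) := by
  rw [← TH575.TrVol.l1_ball_volume n x]
  apply measure_mono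
  apply convexHull_min
  · rintro y ⟨i, rfl | rfl⟩
    · simp only [mem_ofPred_eq, Pi.add_apply, add_sub_cancel_left]
      rw [Finset.sum_eq_single i]
      · simp
      · intro j _ hj
        rw [Pi.single_eq_of_ne hj]; simp
      · intro h; exact absurd (Finset.mem_univ i) h
    · have : ∀ j, |(x - (Pi.single i 1 : Fin (n + 1) → ℝ)) j - x j| =
          |(Pi.single i 1 : Fin (n + 1) → ℝ) j| := by
        intro j
        rw [Pi.sub_apply, ← abs_neg]
        congr 1
        ring
      simp only [mem_ofPred_eq, this]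
      rw [Finset.sum_eq_single i]
      · simp
      · intro j _ hj
        rw [Pi.single_eq_of_ne hj]; simp
      · intro h; exact absurd (Finset.mem_univ i) h
  · intro y hy z hz a b ha hb hab
    simp only [mem_ofPred_eq] at hy hz ⊢
    have : ∀ i, |(a • y + b • z) i - x i| ≤ a * |y i - x i| + b * |z i - x i| := by
      intro i
      have h : (a • y + b • z) i - x i = a * (y i - x i) + b * (z i - x i) := by
        simp only [Pi.add_apply, Pi.smul_apply, smul_eq_mul]
        have : x i = (a + b) * x i := by rw [hab, one_mul]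
        linear_combination -this
      rw [h]
      refine (abs_add_le _ _).trans ?_
      rw [abs_mul, abs_mul, abs_of_nonneg ha, abs_of_nonneg hb]
    calc ∑ i, |(a • y + b • z) i - x i| ≤ ∑ i, (a * |y i - x i| + b * |z i - x i|) :=
          Finset.sum_le_sum fun i _ => this i
      _ = a * ∑ i, |y i - x i| + b * ∑ i, |z i - x i| := by
          rw [Finset.sum_add_distrib, Finset.mul_sum, Finset.mul_sum]
      _ ≤ a * 1 + b * 1 := by gcongr
      _ = 1 := by rw [mul_one, mul_one, hab]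

/-- lower bound for the volume of the standard cross-polytope scaled by `r` -/
theorem cross_std_ge (r : ℝ) (hr : 0 ≤ r) :
    ENNReal.ofReal ((2 * r) ^ (n + 1) / (n + 1).factorial) ≤
      volume (cross 0 (fun i => (Pi.single i r : Fin (n + 1) → ℝ))) := by
  apply TH575.TrVol.chord_volume (n + 1) _ (convex_convexHull _ _) (cross_compact _ _)
    ⟨_, subset_convexHull _ _ ⟨0, Or.inl rfl⟩⟩ (2 * r) (by positivity)
  intro i
  refine ⟨0 - Pi.single i r, subset_convexHull _ _ ⟨i, Or.inr rfl⟩, ?_⟩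
  have : (0 - Pi.single i r + Pi.single i (2 * r) : Fin (n + 1) → ℝ) = 0 + Pi.single i r := by
    ext j
    by_cases hij : j = i
    · subst hij
      simp
      ring
    · simp [Pi.single_eq_of_ne hij]
  rw [this]
  exact subset_convexHull _ _ ⟨i, Or.inl rfl⟩

/-- a chord of `K` from a point of the relative unit ball -/
theorem chord_of_relBall {K : Set (Fin (n + 1) → ℝ)} {v : Fin (n + 1) → ℝ} (hv : v ∈ relBall K) :
    ∃ x ∈ K, x + (2 : ℝ) • v ∈ K := by
  obtain ⟨_, ⟨a, ha, b, hb, rfl⟩, rfl⟩ := hv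
  refine ⟨b, hb, ?_⟩
  have : b + (2 : ℝ) • (fun x => (2⁻¹ : ℝ) • x) (a - b) = a := by
    simp only [smul_smul]
    norm_num
  rw [this]
  exact ha

theorem relBall_convex {K : Set (Fin (n + 1) → ℝ)} (hc : Convex ℝ K) : Convex ℝ (relBall K) :=
  (hc.sub hc).smul _

theorem relBall_compact {K : Set (Fin (n + 1) → ℝ)} (hK : IsCompact K) : IsCompact (relBall K) :=
  by
  have h : K - K = K + (-K) := sub_eq_add_neg K K
  unfold relBall
  rw [h]
  exact (hK.add hK.neg).smul _

theorem relBall_neg {K : Set (Fin (n + 1) → ℝ)} {v : Fin (n + 1) → ℝ} (hv : v ∈ relBall K) :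
    -v ∈ relBall K := by
  obtain ⟨_, ⟨a, ha, b, hb, rfl⟩, rfl⟩ := hv
  refine ⟨_, ⟨b, hb, a, ha, rfl⟩, ?_⟩
  simp only
  rw [← smul_neg]
  congr 1
  abel

theorem mem_of_cross {K : Set (Fin (n + 1) → ℝ)} (hc : Convex ℝ K) {x : Fin (n + 1) → ℝ}
    {u : Fin (n + 1) → Fin (n + 1) → ℝ} (h : cross x u ⊆ relBall K) (i : Fin (n + 1)) :
    u i ∈ relBall K := by
  have h1 : x + u i ∈ relBall K := h (subset_convexHull _ _ ⟨i, Or.inl rfl⟩)
  have h2 : -(x - u i) ∈ relBall K := relBall_neg (h (subset_convexHull _ _ ⟨i, Or.inr rfl⟩))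
  have h3 := relBall_convex hc h1 h2 (a := 2⁻¹) (b := 2⁻¹) (by norm_num) (by norm_num) (by norm_num)
  convert h3 using 1
  ext j
  simp
  ring

/-- the main lower bound, without normalisation -/
theorem lower {K : Set (Fin (n + 1) → ℝ)} (hK : IsBody K) {x : Fin (n + 1) → ℝ}
    {u : Fin (n + 1) → Fin (n + 1) → ℝ} (hu : LinearIndependent ℝ u) (h : cross x u ⊆ relBall K) :
    ((n + 2 : ℕ) : ENNReal) * volume (cross x u) ≤
      volume (convexHull ℝ (K ∪ (((2 : ℝ) • u 0) +ᵥ K))) := by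
  obtain ⟨hc, hcomp, hint⟩ := hK
  have hne : K.Nonempty := hint.mono interior_subset
  rw [TH575.TrVol.hull_eq K hc]
  set bas := basisOfLinearIndependentOfCardEqFinrank hu (by simp) with hbas
  set A : (Fin (n + 1) → ℝ) ≃ₗ[ℝ] (Fin (n + 1) → ℝ) := bas.equivFun with hA
  have hAu : ∀ i, A (u i) = Pi.single i 1 := by
    intro i
    have : u i = bas i := by
      rw [hbas, coe_basisOfLinearIndependentOfCardEqFinrank]
    rw [this, hA]
    ext j
    rw [Module.Basis.equivFun_self]
    simp [Pi.single_apply, eq_comm]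
  have hcont : Continuous A := A.toLinearMap.continuous_of_finiteDimensional
  have hcA : Convex ℝ (A '' K) := hc.is_linear_image A.toLinearMap.isLinear
  have hKA : IsCompact (A '' K) := hcomp.image hcont
  have himg : A '' (K + segment ℝ 0 ((2 : ℝ) • u 0)) = A '' K + segment ℝ 0 (Pi.single 0 2) := by
    rw [image_add]
    congr 1
    have h1 := image_segment ℝ A.toLinearMap.toAffineMap 0 ((2 : ℝ) • u 0)
    simp only [LinearMap.coe_toAffineMap, LinearEquiv.coe_coe, map_zero] at h1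
    rw [h1, map_smul, hAu]
    congr 1
    ext j
    by_cases hj : j = 0
    · subst hj; simp
    · simp [Pi.single_eq_of_ne hj]
  have h1 := TH575.TrVol.sum_lower0 n (A '' K) hcA hKA (hne.image _) 2 (by norm_num) (by
    intro i
    obtain ⟨z, hz, hz'⟩ := chord_of_relBall (mem_of_cross hc h i)
    refine ⟨A z, ⟨z, hz, rfl⟩, ⟨_, hz', ?_⟩⟩
    rw [map_add, map_smul, hAu]
    congr 1
    ext j
    by_cases hj : j = i
    · subst hj; simp
    · simp [Pi.single_eq_of_ne hj])
  have h2 := cross_std_le (n := n) (A x)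
  have h3 : A '' cross x u = cross (A x) (fun i => (Pi.single i 1 : Fin (n + 1) → ℝ)) := by
    rw [cross_image]
    congr 1
    ext i
    rw [hAu]
  rw [← h3] at h2
  have hdet : LinearMap.det (A : (Fin (n + 1) → ℝ) →ₗ[ℝ] (Fin (n + 1) → ℝ)) ≠ 0 :=
    (LinearEquiv.isUnit_det' A).ne_zero
  have hpos : ENNReal.ofReal |LinearMap.det (A : (Fin (n + 1) → ℝ) →ₗ[ℝ] (Fin (n + 1) → ℝ))| ≠ 0 := by
    rw [Ne, ENNReal.ofReal_eq_zero, not_le]
    positivity
  have e1 : volume (A '' cross x u) = _ := Measure.addHaar_image_linearMap volume (A : (Fin (n + 1) → ℝ) →ₗ[ℝ] (Fin (n + 1) → ℝ)) (cross x u)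
  have e2 : volume (A '' (K + segment ℝ 0 ((2 : ℝ) • u 0))) = _ := Measure.addHaar_image_linearMap volume (A : (Fin (n + 1) → ℝ) →ₗ[ℝ] (Fin (n + 1) → ℝ)) (K + segment ℝ 0 ((2 : ℝ) • u 0))
  rw [← himg, e2] at h1
  rw [e1] at h2
  refine (ENNReal.mul_le_mul_iff_right hpos ENNReal.ofReal_ne_top).1 ?_
  refine le_trans ?_ h1
  rw [← mul_assoc, mul_comm _ ((n + 2 : ℕ) : ENNReal), mul_assoc]
  refine (mul_le_mul_right h2 _).trans ?_
  rw [← ENNReal.ofReal_natCast, ← ENNReal.ofReal_mul (by positivity)]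
  apply le_of_eq
  congr 1
  push_cast
  ring

theorem upper {K : Set (Fin (n + 1) → ℝ)} (hK : IsBody K) {p : Fin (n + 1) → ℝ}
    (hp : ((p +ᵥ K) ∩ K).Nonempty) :
    volume (convexHull ℝ (K ∪ (p +ᵥ K))) ≤ ((n + 2 : ℕ) : ENNReal) * volume K := by
  obtain ⟨hc, hcomp, hint⟩ := hK
  rw [TH575.TrVol.hull_eq K hc]
  obtain ⟨b, ⟨a, ha, hab⟩, hb⟩ := hp
  have : p = b - a := by
    rw [← hab]
    simp
  rw [this]
  exact TH575.TrVol.sum_upper n K hc hcomp a b ha hb

theorem hull_fin {K : Set (Fin (n + 1) → ℝ)} (hK : IsBody K) {p : Fin (n + 1) → ℝ}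
    (hp : ((p +ᵥ K) ∩ K).Nonempty) : volume (convexHull ℝ (K ∪ (p +ᵥ K))) ≠ ⊤ := by
  refine ne_top_of_le_ne_top ?_ (upper hK hp)
  exact ENNReal.mul_ne_top (by simp) hK.2.1.measure_lt_top.ne

theorem maxCross_bdd {K : Set (Fin (n + 1) → ℝ)} (hK : IsCompact K) :
    BddAbove {v | ∃ (x : Fin (n + 1) → ℝ) (u : Fin (n + 1) → Fin (n + 1) → ℝ),
      LinearIndependent ℝ u ∧ cross x u ⊆ K ∧ v = (volume (cross x u)).toReal} := by
  refine ⟨(volume K).toReal, ?_⟩
  rintro v ⟨x, u, _, h, rfl⟩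
  exact ENNReal.toReal_mono hK.measure_lt_top.ne (measure_mono h)

theorem zero_mem_interior {K : Set (Fin (n + 1) → ℝ)} (hint : (interior K).Nonempty) :
    (0 : Fin (n + 1) → ℝ) ∈ interior (relBall K) := by
  obtain ⟨a, ha⟩ := hint
  rw [mem_interior]
  refine ⟨(2⁻¹ : ℝ) • (interior K - {a}), ?_, ?_, ?_⟩
  · apply smul_set_mono
    exact sub_subset_sub interior_subset (singleton_subset_iff.2 (interior_subset ha))
  · apply IsOpen.smul₀ _ (by norm_num)
    exact isOpen_interior.sub_right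
  · refine ⟨0, ⟨a, ha, a, rfl, sub_self a⟩, ?_⟩
    simp

theorem maxCross_pos {K : Set (Fin (n + 1) → ℝ)} (hK : IsBody K) : 0 < maxCross (relBall K) := by
  obtain ⟨hc, hcomp, hint⟩ := hK
  have h0 := zero_mem_interior hint
  rw [mem_interior_iff_mem_nhds, Metric.mem_nhds_iff] at h0
  obtain ⟨ε, hε, hball⟩ := h0
  have hin : cross 0 (fun i => (Pi.single i (ε / 2) : Fin (n + 1) → ℝ)) ⊆ relBall K := by
    apply convexHull_min _ (relBall_convex hc)
    rintro y ⟨i, rfl | rfl⟩
    · apply hball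
      rw [zero_add, mem_ball_zero_iff, Pi.norm_single, Real.norm_of_nonneg (by linarith)]
      linarith
    · apply hball
      rw [zero_sub, mem_ball_zero_iff, norm_neg, Pi.norm_single, Real.norm_of_nonneg (by linarith)]
      linarith
  have hli : LinearIndependent ℝ (fun i => (Pi.single i (ε / 2) : Fin (n + 1) → ℝ)) := by
    rw [Fintype.linearIndependent_iff]
    intro g hg i
    have := congrFun hg i
    rw [Finset.sum_apply, Finset.sum_eq_single i] at this
    · simp only [Pi.smul_apply, Pi.single_eq_same, smul_eq_mul, Pi.zero_apply, mul_eq_zero] at this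
      rcases this with h | h
      · exact h
      · linarith
    · intro j _ hj
      simp [Pi.single_eq_of_ne hj.symm]
    · intro h; exact absurd (Finset.mem_univ i) h
  have h1 := cross_std_ge (n := n) (ε / 2) (by linarith)
  have h2 : 0 < (volume (cross 0 (fun i => (Pi.single i (ε / 2) : Fin (n + 1) → ℝ)))).toReal := by
    apply ENNReal.toReal_pos
    · intro h
      rw [h, nonpos_iff_eq_zero, ENNReal.ofReal_eq_zero] at h1
      have : 0 < (2 * (ε / 2)) ^ (n + 1) / ((n + 1).factorial : ℝ) := by positivity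
      linarith
    · exact (cross_compact _ _).measure_lt_top.ne
  refine h2.trans_le (le_csSup (maxCross_bdd (relBall_compact hcomp)) ⟨_, _, hli, hin, rfl⟩)

theorem ctr_bdd {K : Set (Fin (n + 1) → ℝ)} (hK : IsBody K) :
    BddAbove {c | ∃ p : Fin (n + 1) → ℝ, ((p +ᵥ K) ∩ K).Nonempty ∧
      c = mass (relBall K) (convexHull ℝ (K ∪ (p +ᵥ K)))} := by
  refine ⟨(2 ^ (n + 1) / (n + 1).factorial) / maxCross (relBall K) *
    (((n + 2 : ℕ) : ENNReal) * volume K).toReal, ?_⟩
  rintro c ⟨p, hp, rfl⟩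
  unfold mass
  have := maxCross_pos hK
  apply mul_le_mul_of_nonneg_left _ (by positivity)
  exact ENNReal.toReal_mono (ENNReal.mul_ne_top (by simp) hK.2.1.measure_lt_top.ne) (upper hK hp)

theorem ctr_ge {K : Set (Fin (n + 1) → ℝ)} (hK : IsBody K) :
    ((n + 1 : ℕ) + 1) * 2 ^ (n + 1) / ((n + 1).factorial : ℝ) ≤ ctr K := by
  have hm := maxCross_pos hK
  have hf : (0 : ℝ) < 2 ^ (n + 1) / (n + 1).factorial := by positivity
  -- every inscribed cross-polytope is bounded by the value of `ctr`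
  have key : ∀ (x : Fin (n + 1) → ℝ) (u : Fin (n + 1) → Fin (n + 1) → ℝ), LinearIndependent ℝ u →
      cross x u ⊆ relBall K → (volume (cross x u)).toReal ≤
        ctr K * maxCross (relBall K) / (2 ^ (n + 1) / (n + 1).factorial) / ((n + 1 : ℕ) + 1) := by
    intro x u hu h
    have h1 := lower hK hu h
    have hmem := mem_of_cross hK.1 h 0
    obtain ⟨z, hz, hz'⟩ := chord_of_relBall hmem
    have hp : ((((2 : ℝ) • u 0) +ᵥ K) ∩ K).Nonempty :=
      ⟨z + (2 : ℝ) • u 0, ⟨z, hz, by simp [add_comm]⟩, hz'⟩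
    have h2 : mass (relBall K) (convexHull ℝ (K ∪ (((2 : ℝ) • u 0) +ᵥ K))) ≤ ctr K :=
      le_csSup (ctr_bdd hK) ⟨_, hp, rfl⟩
    have h3 := ENNReal.toReal_mono (hull_fin hK hp) h1
    rw [ENNReal.toReal_mul, ENNReal.toReal_natCast] at h3
    unfold mass at h2
    rw [le_div_iff₀ (by positivity), le_div_iff₀ hf]
    have h4 : (volume (cross x u)).toReal * ((n + 1 : ℕ) + 1) ≤
        (volume (convexHull ℝ (K ∪ (((2 : ℝ) • u 0) +ᵥ K)))).toReal := by
      refine le_trans (le_of_eq ?_) h3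
      push_cast
      ring
    calc (volume (cross x u)).toReal * ((n + 1 : ℕ) + 1) * (2 ^ (n + 1) / ((n + 1).factorial : ℝ))
        ≤ (volume (convexHull ℝ (K ∪ (((2 : ℝ) • u 0) +ᵥ K)))).toReal *
          (2 ^ (n + 1) / ((n + 1).factorial : ℝ)) := mul_le_mul_of_nonneg_right h4 hf.le
      _ = ((2 ^ (n + 1) / (n + 1).factorial) / maxCross (relBall K) *
          (volume (convexHull ℝ (K ∪ (((2 : ℝ) • u 0) +ᵥ K)))).toReal) * maxCross (relBall K) := by
          field_simp
      _ ≤ _ := mul_le_mul_of_nonneg_right h2 hm.le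
  have hne : {v | ∃ (x : Fin (n + 1) → ℝ) (u : Fin (n + 1) → Fin (n + 1) → ℝ),
      LinearIndependent ℝ u ∧ cross x u ⊆ relBall K ∧ v = (volume (cross x u)).toReal}.Nonempty := by
    by_contra hcon
    rw [not_nonempty_iff_eq_empty] at hcon
    unfold maxCross at hm
    rw [hcon, Real.sSup_empty] at hm
    exact lt_irrefl _ hm
  have h5 : maxCross (relBall K) ≤
      ctr K * maxCross (relBall K) / (2 ^ (n + 1) / (n + 1).factorial) / ((n + 1 : ℕ) + 1) := by
    apply csSup_le hne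
    rintro v ⟨x, u, hu, h, rfl⟩
    exact key x u hu h
  rw [le_div_iff₀ (by positivity), le_div_iff₀ hf] at h5
  have h6 : maxCross (relBall K) * (((n + 1 : ℕ) + 1) * 2 ^ (n + 1) / ((n + 1).factorial : ℝ)) ≤
      maxCross (relBall K) * ctr K := by
    calc _ = maxCross (relBall K) * ((n + 1 : ℕ) + 1) * (2 ^ (n + 1) / ((n + 1).factorial : ℝ)) := by ring
      _ ≤ _ := h5
      _ = _ := mul_comm _ _
  exact le_of_mul_le_mul_left h6 hm

end lemmas

/-- The cross-polytope with vertices `± e i`. -/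
def C (d : ℕ) : Set (Fin d → ℝ) := cross 0 (fun i => (Pi.single i 1 : Fin d → ℝ))

theorem C_neg {n : ℕ} {x : Fin (n + 1) → ℝ} (hx : x ∈ C (n + 1)) : -x ∈ C (n + 1) := by
  have h := cross_image (n := n) (LinearEquiv.neg ℝ) 0 (fun i => (Pi.single i 1 : Fin (n + 1) → ℝ))
  have h2 : cross ((LinearEquiv.neg ℝ) (0 : Fin (n + 1) → ℝ))
      (fun i => (LinearEquiv.neg ℝ) (Pi.single i 1 : Fin (n + 1) → ℝ)) = C (n + 1) := by
    unfold C cross
    congr 1
    ext y
    simp only [mem_ofPred_eq, LinearEquiv.neg_apply, neg_zero, zero_add, zero_sub, neg_neg]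
    constructor
    · rintro ⟨i, h | h⟩
      · exact ⟨i, Or.inr h⟩
      · exact ⟨i, Or.inl h⟩
    · rintro ⟨i, h | h⟩
      · exact ⟨i, Or.inr h⟩
      · exact ⟨i, Or.inl h⟩
  rw [h2] at h
  rw [← h]
  exact ⟨x, hx, rfl⟩

theorem relBall_C {n : ℕ} : relBall (C (n + 1)) = C (n + 1) := by
  have hc : Convex ℝ (C (n + 1)) := convex_convexHull _ _
  apply Subset.antisymm
  · rintro _ ⟨_, ⟨a, ha, b, hb, rfl⟩, rfl⟩
    have := hc ha (C_neg hb) (a := 2⁻¹) (b := 2⁻¹) (by norm_num) (by norm_num) (by norm_num)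
    convert this using 1
    simp only
    rw [← smul_add, sub_eq_add_neg]
  · intro a ha
    refine ⟨_, ⟨a, ha, -a, C_neg ha, rfl⟩, ?_⟩
    simp only
    rw [sub_neg_eq_add, ← two_smul ℝ a, smul_smul]
    norm_num

theorem C_body {n : ℕ} : IsBody (C (n + 1)) := by
  refine ⟨convex_convexHull _ _, cross_compact _ _, ?_⟩
  by_contra hcon
  rw [not_nonempty_iff_eq_empty] at hcon
  have h1 : frontier (C (n + 1)) = C (n + 1) := by
    unfold frontier
    rw [hcon, sdiff_empty]
    exact (cross_compact _ _).isClosed.closure_eq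
  have h2 := Convex.addHaar_frontier (volume : Measure (Fin (n + 1) → ℝ))
    (convex_convexHull ℝ {y | ∃ i, y = 0 + (Pi.single i 1 : Fin (n + 1) → ℝ) ∨
      y = 0 - (Pi.single i 1 : Fin (n + 1) → ℝ)})
  have h3 : volume (C (n + 1)) = 0 := by
    rw [← h1]
    exact h2
  have h4 := cross_std_ge (n := n) 1 zero_le_one
  have h5 : volume (cross 0 (fun i => (Pi.single i 1 : Fin (n + 1) → ℝ))) = 0 := h3
  rw [h5, nonpos_iff_eq_zero, ENNReal.ofReal_eq_zero] at h4
  have : 0 < (2 * 1) ^ (n + 1) / ((n + 1).factorial : ℝ) := by positivity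
  linarith

theorem C_ctr {n : ℕ} : ctr (C (n + 1)) ≤ ((n + 1 : ℕ) + 1) * 2 ^ (n + 1) / ((n + 1).factorial : ℝ) := by
  have hB := C_body (n := n)
  have hm := maxCross_pos hB
  have hli : LinearIndependent ℝ (fun i => (Pi.single i 1 : Fin (n + 1) → ℝ)) := by
    have := (Pi.basisFun ℝ (Fin (n + 1))).linearIndependent
    convert this using 1
    ext i
    simp
  have hle : (volume (C (n + 1))).toReal ≤ maxCross (relBall (C (n + 1))) := by
    apply le_csSup (maxCross_bdd (relBall_compact hB.2.1))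
    exact ⟨0, _, hli, relBall_C.ge, rfl⟩
  apply csSup_le
  · refine ⟨_, 0, ?_, rfl⟩
    have hne : (C (n + 1)).Nonempty := hB.2.2.mono interior_subset
    simpa using hne
  · rintro c ⟨p, hp, rfl⟩
    have h1 := ENNReal.toReal_mono (ENNReal.mul_ne_top (by simp) hB.2.1.measure_lt_top.ne) (upper hB hp)
    rw [ENNReal.toReal_mul, ENNReal.toReal_natCast] at h1
    unfold mass
    have h2 : (volume (convexHull ℝ (C (n + 1) ∪ (p +ᵥ C (n + 1))))).toReal ≤
        ((n + 2 : ℕ) : ℝ) * maxCross (relBall (C (n + 1))) :=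
      h1.trans (mul_le_mul_of_nonneg_left hle (by positivity))
    calc _ ≤ (2 ^ (n + 1) / (n + 1).factorial) / maxCross (relBall (C (n + 1))) *
          (((n + 2 : ℕ) : ℝ) * maxCross (relBall (C (n + 1)))) :=
          mul_le_mul_of_nonneg_left h2 (by positivity)
      _ = _ := by
          push_cast
          field_simp
          ring

theorem result : ∀ d : ℕ, 1 ≤ d →
    IsLeast {c : ℝ | ∃ K : Set (Fin d → ℝ), IsBody K ∧ c = ctr K}
      ((d + 1) * 2 ^ d / (d.factorial : ℝ)) ∧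
    IsBody (C d) ∧ ctr (C d) = (d + 1) * 2 ^ d / (d.factorial : ℝ) := by
  intro d hd
  obtain ⟨n, rfl⟩ : ∃ n, d = n + 1 := ⟨d - 1, by omega⟩
  have h : ctr (C (n + 1)) = ((n + 1 : ℕ) + 1) * 2 ^ (n + 1) / ((n + 1).factorial : ℝ) :=
    le_antisymm C_ctr (ctr_ge C_body)
  refine ⟨⟨⟨C (n + 1), C_body, h.symm⟩, ?_⟩, C_body, h⟩
  rintro c ⟨K, hK, rfl⟩
  exact ctr_ge hK

end Pool.Agent.Results.MP_87489e_co.GromovMass
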